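import Pool.Agent.Work.MP_959bfa_lin.Interface3

namespace Wn

open Finset

theorem boot3_mono {F F' μ : ℝ} (h : Nets F μ) (hF : F ≤ F') : Nets F' μ := by
  intro n k P hk hn
  obtain ⟨Z, hZ, hZ2⟩ := h n k P hk hn
  exact ⟨Z, hZ.trans (mul_le_mul_of_nonneg_right hF (by positivity)), hZ2⟩

theorem boot3_log (x : ℝ) (hx : 1 ≤ x) :
    1 + Real.log x ≤ 4 * Real.sqrt (Real.sqrt x) := by
  have hx0 : 0 < x := by linarith
  have h1 : Real.log x = 4 * Real.log (Real.sqrt (Real.sqrt x)) := by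
    rw [Real.log_sqrt (Real.sqrt_nonneg _), Real.log_sqrt hx0.le]
    ring
  have h2 : 0 < Real.sqrt (Real.sqrt x) := Real.sqrt_pos.2 (Real.sqrt_pos.2 hx0)
  have h3 := Real.log_le_sub_one_of_pos h2
  linarith

theorem boot3_step (K : ℝ) (hK : 1 ≤ K)
    (hone : ∀ F μ k0 : ℝ, 1 ≤ F → 1 ≤ μ → K ≤ k0 → K * Real.log F ≤ k0 →
      Nets F (2 * μ) → Nets (6 * k0) μ)
    (F μ : ℝ) (hF : (24 * K) ^ 4 ≤ F) (hμ : 1 ≤ μ) (hN : Nets F (2 * μ)) :
    Nets (Real.sqrt F) μ := by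
  have h24 : (1 : ℝ) ≤ 24 * K := by linarith
  have hF1 : 1 ≤ F := (one_le_pow₀ h24).trans hF
  have hlog : 0 ≤ Real.log F := Real.log_nonneg hF1
  have h1 := hone F μ (K * (1 + Real.log F)) hF1 hμ
    (le_mul_of_one_le_right (by linarith) (by linarith))
    (mul_le_mul_of_nonneg_left (by linarith) (by linarith)) hN
  refine boot3_mono h1 ?_
  have h2 := boot3_log F hF1
  have h3 : 24 * K ≤ Real.sqrt (Real.sqrt F) := by
    apply Real.le_sqrt_of_sq_le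
    apply Real.le_sqrt_of_sq_le
    calc ((24 * K) ^ 2) ^ 2 = (24 * K) ^ 4 := by ring
      _ ≤ F := hF
  have h4 : Real.sqrt (Real.sqrt F) * Real.sqrt (Real.sqrt F) = Real.sqrt F :=
    Real.mul_self_sqrt (Real.sqrt_nonneg _)
  have h5 : 0 ≤ Real.sqrt (Real.sqrt F) := Real.sqrt_nonneg _
  calc 6 * (K * (1 + Real.log F)) ≤ 6 * (K * (4 * Real.sqrt (Real.sqrt F))) := by
        apply mul_le_mul_of_nonneg_left _ (by norm_num)
        exact mul_le_mul_of_nonneg_left h2 (by linarith)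
    _ = (24 * K) * Real.sqrt (Real.sqrt F) := by ring
    _ ≤ Real.sqrt (Real.sqrt F) * Real.sqrt (Real.sqrt F) :=
        mul_le_mul_of_nonneg_right h3 h5
    _ = Real.sqrt F := h4

theorem boot3_iter (K : ℝ) (hK : 1 ≤ K)
    (hone : ∀ F μ k0 : ℝ, 1 ≤ F → 1 ≤ μ → K ≤ k0 → K * Real.log F ≤ k0 →
      Nets F (2 * μ) → Nets (6 * k0) μ) (m : ℕ) :
    ∀ μ : ℝ, 1 ≤ μ → Nets (max ((24 * K) ^ 4) (2 ^ (2 ^ m))) (2 ^ m * μ) →
      Nets (max ((24 * K) ^ 4) 2) μ := by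
  have h24 : (1 : ℝ) ≤ (24 * K) ^ 4 := one_le_pow₀ (by linarith)
  induction m with
  | zero =>
    intro μ _ h
    simpa using h
  | succ m ih =>
    intro μ hμ h
    apply ih μ hμ
    have hμ' : (1 : ℝ) ≤ 2 ^ m * μ := by
      have h1 : (1 : ℝ) ≤ 2 ^ m := one_le_pow₀ (by norm_num)
      calc (1 : ℝ) = 1 * 1 := (one_mul 1).symm
        _ ≤ 2 ^ m * μ := mul_le_mul h1 hμ (by norm_num) (by linarith)
    have h2 : Nets (max ((24 * K) ^ 4) (2 ^ (2 ^ (m + 1)))) (2 * (2 ^ m * μ)) := by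
      have h3 : (2 : ℝ) * (2 ^ m * μ) = 2 ^ (m + 1) * μ := by ring
      rw [h3]
      exact h
    refine boot3_mono (boot3_step K hK hone _ _ (le_max_left _ _) hμ' h2) ?_
    rcases le_total ((24 * K) ^ 4) ((2 : ℝ) ^ (2 ^ (m + 1))) with hle | hle
    · rw [max_eq_right hle]
      have h3 : (2 : ℝ) ^ (2 ^ (m + 1)) = ((2 : ℝ) ^ (2 ^ m)) ^ 2 := by
        rw [← pow_mul]
        congr 1
      rw [h3, Real.sqrt_sq (by positivity)]
      exact le_max_right _ _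
    · rw [max_eq_left hle]
      refine le_trans ?_ (le_max_left _ _)
      apply Real.sqrt_le_iff.2
      refine ⟨by linarith, ?_⟩
      nlinarith

theorem BOOT3 (hGRID : stmt_GRID) (hONE : stmt_ONE3) : stmt_BOOT3 := by
  obtain ⟨K, hK, hone⟩ := hONE
  refine ⟨max ((24 * K) ^ 4) 2, lt_max_of_lt_right (by norm_num), fun μ hμ => ?_⟩
  obtain ⟨m, hm⟩ := pow_unbounded_of_one_lt μ (by norm_num : (1 : ℝ) < 2)
  apply boot3_iter K hK hone m μ hμ
  refine boot3_mono (hGRID (2 ^ m * μ) (by positivity)) ?_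
  refine le_trans ?_ (le_max_right _ _)
  have h1 : (2 : ℝ) ^ m * μ ≤ 2 ^ m * 2 ^ m := mul_le_mul_of_nonneg_left hm.le (by positivity)
  have h2 : 2 * m ≤ 2 ^ m := by
    clear hm h1
    induction m with
    | zero => norm_num
    | succ m ih =>
      rcases Nat.eq_zero_or_pos m with rfl | hpos
      · norm_num
      · have : 2 ≤ 2 ^ m := by
          calc 2 = 2 ^ 1 := rfl
            _ ≤ 2 ^ m := Nat.pow_le_pow_right (by norm_num) hpos
        rw [pow_succ]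
        omega
  calc (2 : ℝ) ^ m * μ ≤ 2 ^ m * 2 ^ m := h1
    _ = 2 ^ (2 * m) := by rw [← pow_add]; congr 1; ring
    _ ≤ 2 ^ (2 ^ m) := pow_le_pow_right₀ (by norm_num) h2

end Wn
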