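import Pool.Agent.Work.MP_959bfa_lin.Interface3

namespace Wn

open Finset

theorem fin3_nets (C : ℝ) (hC : 0 < C) (h : ∀ μ : ℝ, 1 ≤ μ → Nets C μ)
    (n k : ℕ) (P : Fin n → ℝ × ℝ) (hk : 1 ≤ k) :
    ∃ Z : Finset (ℝ × ℝ), (Z.card : ℝ) ≤ C * (n / k) ∧
      ∀ R : Bx, k ≤ (inds P R).card → ∃ z ∈ Z, In R z.1 z.2 := by
  have hkpos : (0 : ℝ) < k := by exact_mod_cast hk
  by_cases hnk : n < k
  · refine ⟨∅, ?_, ?_⟩
    · have : (0 : ℝ) ≤ C * (n / k) := by positivity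
      simpa using this
    · intro R hR
      have h1 : (inds P R).card ≤ n := (Finset.card_le_univ _).trans (by simp)
      omega
  · have h1 : (k : ℝ) ≤ n := by exact_mod_cast (not_lt.1 hnk)
    exact h (n / k) ((one_le_div hkpos).2 h1) n k P hk
      (le_of_eq (by field_simp))

theorem FIN3 (h : stmt_BOOT3) : stmt_FIN3 := by
  classical
  obtain ⟨C, hC, hN⟩ := h
  refine ⟨C, fun k hk A => ?_⟩
  obtain ⟨Z, hZ, hZ2⟩ := fin3_nets C hC hN A.card k (fun i => (A.equivFin.symm i : ℝ × ℝ)) hk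
  refine ⟨Z, ?_, ?_⟩
  · rw [mul_div_assoc]
    exact hZ
  · intro a b hab
    have hcard : ((A : Set (ℝ × ℝ)) ∩ Set.Icc a b).ncard =
        (inds (fun i => (A.equivFin.symm i : ℝ × ℝ)) ⟨a.1, b.1, a.2, b.2⟩).card := by
      have h1 : (A : Set (ℝ × ℝ)) ∩ Set.Icc a b =
          ((A.filter (fun p => p ∈ Set.Icc a b) : Finset (ℝ × ℝ)) : Set (ℝ × ℝ)) := by
        ext p
        simp
      rw [h1, Set.ncard_coe_finset]
      symm
      refine Finset.card_bij (fun i _ => (A.equivFin.symm i : ℝ × ℝ)) ?_ ?_ ?_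
      · intro i hi
        have h2 := (mem_fl.1 hi).2
        rw [mem_filter]
        refine ⟨(A.equivFin.symm i).2, ?_⟩
        rw [Set.mem_Icc, Prod.le_def, Prod.le_def]
        exact ⟨⟨h2.1, h2.2.2.1⟩, ⟨h2.2.1, h2.2.2.2⟩⟩
      · intro i _ j _ hij
        exact A.equivFin.symm.injective (Subtype.ext hij)
      · intro p hp
        rw [mem_filter] at hp
        refine ⟨A.equivFin ⟨p, hp.1⟩, ?_, by simp⟩
        refine mem_fl.2 ⟨mem_univ _, ?_⟩
        have h2 := hp.2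
        rw [Set.mem_Icc, Prod.le_def, Prod.le_def] at h2
        simp only [Equiv.symm_apply_apply]
        exact ⟨h2.1.1, h2.2.1, h2.1.2, h2.2.2⟩
    rw [hcard] at hab
    obtain ⟨z, hz, hz2⟩ := hZ2 _ hab
    refine ⟨z, hz, ?_⟩
    rw [Set.mem_Icc, Prod.le_def, Prod.le_def]
    exact ⟨⟨hz2.1, hz2.2.2.1⟩, ⟨hz2.2.1, hz2.2.2.2⟩⟩

end Wn
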