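import Pool.Agent.Work.MP_959bfa_lin.Interface3

namespace Wn

open Finset

/-- point weights -/
noncomputable def fra_a {n : ℕ} (B : Finset (Fin n)) (ε : ℝ) (p : Fin n) : ℝ := by
  classical exact (if p ∈ B then -1 else 1) - ε / 2

theorem fra_sum {n : ℕ} (P : Fin n → ℝ × ℝ) (B : Finset (Fin n)) (ε : ℝ) (R : Bx) :
    ∑ p ∈ inds P R, fra_a B ε p = dev P B R - ε / 2 * ((inds P R).card : ℝ) := by
  classical
  unfold fra_a dev
  rw [Finset.sum_sub_distrib, Finset.sum_const, nsmul_eq_mul, Finset.sum_ite]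
  simp only [Finset.sum_const, nsmul_eq_mul]
  have h1 : (Finset.filter (fun p => p ∈ B) (inds P R)) = inds P R ∩ B :=
    Finset.filter_mem_eq_inter
  have h2 := Finset.card_filter_add_card_filter_not (s := inds P R) (fun p => p ∈ B)
  rw [h1] at h2 ⊢
  have h3 : ((Finset.filter (fun p => ¬ p ∈ B) (inds P R)).card : ℝ) =
      ((inds P R).card : ℝ) - ((inds P R ∩ B).card : ℝ) := by
    have h4 : (((inds P R ∩ B).card + (Finset.filter (fun p => ¬ p ∈ B) (inds P R)).card : ℕ) : ℝ)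
        = ((inds P R).card : ℝ) := by rw [h2]
    push_cast at h4
    linarith
  rw [h3]
  ring

theorem fra_dev_le {n : ℕ} (P : Fin n → ℝ × ℝ) (B : Finset (Fin n)) (R : Bx) :
    dev P B R ≤ ((inds P R).card : ℝ) := by
  unfold dev
  have : (0 : ℝ) ≤ ((inds P R ∩ B).card : ℝ) := Nat.cast_nonneg _
  linarith

theorem fra_wk_trans {R S T : Bx} (h1 : Wk R S) (h2 : Wk S T) : Wk R T := by
  obtain ⟨a, b, c, d⟩ := h1
  obtain ⟨a', b', c', d'⟩ := h2
  exact ⟨a'.trans a, b.trans b', c.trans c', d'.trans d⟩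

theorem fra_wk_antisymm {R S : Bx} (h1 : Wk R S) (h2 : Wk S R) : R = S := by
  obtain ⟨a, b, c, d⟩ := h1
  obtain ⟨a', b', c', d'⟩ := h2
  cases R; cases S
  simp only [Bx.mk.injEq] at *
  exact ⟨le_antisymm a' a, le_antisymm b b', le_antisymm c c', le_antisymm d' d⟩

/-- chains in the weak crossing order have a common point -/
theorem fra_common {ι : Type} (S : ι → Bx) (C : Finset ι) (hC : C.Nonempty)
    (hne : ∀ i ∈ C, Ne (S i))
    (h : ∀ i ∈ C, ∀ j ∈ C, i ≠ j → Wk (S i) (S j) ∨ Wk (S j) (S i)) :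
    ∃ u v : ℝ, ∀ i ∈ C, In (S i) u v := by
  obtain ⟨i0, hi0, h0⟩ := Finset.exists_max_image C (fun i => (S i).l) hC
  obtain ⟨i1, hi1, h1⟩ := Finset.exists_max_image C (fun i => (S i).b) hC
  refine ⟨(S i0).l, (S i1).b, fun i hi => ⟨h0 i hi, ?_, h1 i hi, ?_⟩⟩
  · by_cases hii : i = i0
    · rw [hii]; exact (hne i0 hi0).1
    · rcases h i hi i0 hi0 hii with hw | hw
      · exact hw.1.trans (hne i hi).1
      · exact (hne i0 hi0).1.trans hw.2.1
  · by_cases hii : i = i1
    · rw [hii]; exact (hne i1 hi1).2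
    · rcases h i hi i1 hi1 hii with hw | hw
      · exact (hne i1 hi1).2.trans hw.2.2.2
      · exact hw.2.2.1.trans (hne i hi).2

/-- the exponent in the size class `j` -/
theorem fra_exp (ε κ x ρ : ℝ) (hε : 0 < ε) (hκ : 0 < κ) (hx : 0 < x)
    (h1 : ε * κ / (8 * x) ≤ ρ) (h2 : ε / 2 ≤ ρ) :
    ε ^ 2 * κ / 256 + ε ^ 2 * x / 64 ≤ ρ ^ 2 * x / 8 := by
  have hρ : 0 < ρ := by linarith
  have h3 : (ε * κ / (8 * x)) * (ε / 2) ≤ ρ * ρ :=
    mul_le_mul h1 h2 (by positivity) hρ.le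
  have h4 : (ε / 2) * (ε / 2) ≤ ρ * ρ := mul_le_mul h2 h2 (by positivity) hρ.le
  have h5 : (ε * κ / (8 * x)) * (ε / 2) * x = ε ^ 2 * κ / 16 := by
    field_simp
    ring
  have h6 := mul_le_mul_of_nonneg_right h3 hx.le
  have h7 := mul_le_mul_of_nonneg_right h4 hx.le
  rw [h5] at h6
  nlinarith

theorem FRA (hUNC : stmt_UNC) (hLEV : stmt_LEV) (hCLS : stmt_CLS) (hSUMJ : stmt_SUMJ) :
    stmt_FRA := by
  classical
  refine ⟨819200 * (1440 * 64 ^ 6), by norm_num, ?_⟩
  intro n t w κ P B ε R hgood hw hκ hε hε1 hne hdep hR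
  have hκpos : (0 : ℝ) < κ := by exact_mod_cast hκ
  have hwpos : (0 : ℝ) < w := by exact_mod_cast hw
  have hn0 : (0 : ℝ) ≤ n := Nat.cast_nonneg n
  set c : ℝ := ε * κ / 4 with hc
  have hcpos : 0 < c := by positivity
  obtain ⟨ι, hfin, S, y, hSne, hinj, hy, hdepth, hgn, hsum, hunc⟩ :=
    hUNC n t w P (fra_a B ε) c R hne hw hdep
  -- gains of the given family
  have hgR : ∀ i, ε * κ / 4 ≤ gn P (fra_a B ε) c (R i) := by
    intro i
    unfold gn
    rw [fra_sum]
    obtain ⟨h1, h2⟩ := hR i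
    have h3 : (κ : ℝ) ≤ ((inds P (R i)).card : ℝ) := by exact_mod_cast h1
    have h4 : ε / 2 * κ ≤ ε / 2 * ((inds P (R i)).card : ℝ) :=
      mul_le_mul_of_nonneg_left h3 (by positivity)
    rw [hc]
    linarith
  have ht : (t : ℝ) * (ε * κ / 4) ≤ ∑ i, gn P (fra_a B ε) c (R i) := by
    calc (t : ℝ) * (ε * κ / 4) = ∑ _i : Fin t, (ε * κ / 4) := by simp
      _ ≤ _ := Finset.sum_le_sum (fun i _ => hgR i)
  -- the antichain
  obtain ⟨A, hA, hAsum⟩ := hLEV ι hfin (fun i j => Wk (S i) (S j) ∧ i ≠ j) y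
    (fun i => gn P (fra_a B ε) c (S i)) 1 (fun i h => h.2 rfl)
    (fun i j k hij hjk => ⟨fra_wk_trans hij.1 hjk.1, fun hik => by
      subst hik
      exact hij.2 (hinj (fra_wk_antisymm hij.1 hjk.1))⟩)
    (fun i => (hy i).le) hgn
    (fun C hC => by
      by_cases hCe : C.Nonempty
      · obtain ⟨u, v, huv⟩ := fra_common S C hCe (fun i _ => hSne i)
          (fun i hi j hj hij => (hC i hi j hj hij).imp (fun h => h.1) (fun h => h.1))
        refine le_trans (Finset.sum_le_sum_of_subset_of_nonneg ?_ (fun i _ _ => (hy i).le))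
          (hdepth u v)
        intro i hi
        exact mem_fl.2 ⟨mem_univ i, huv i hi⟩
      · rw [Finset.not_nonempty_iff_eq_empty.1 hCe]
        simp)
  rw [one_mul] at hAsum
  -- properties of the members
  have hmem : ∀ i, c + ε / 2 * ((inds P (S i)).card : ℝ) ≤ dev P B (S i) := by
    intro i
    have h1 := hgn i
    unfold gn at h1
    rw [fra_sum] at h1
    linarith
  have hcard1 : ∀ i, 1 ≤ (inds P (S i)).card := by
    intro i
    have h1 := hmem i
    have h2 := fra_dev_le P B (S i)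
    have h3 : (0 : ℝ) ≤ ε / 2 * ((inds P (S i)).card : ℝ) := by positivity
    have h4 : (0 : ℝ) < ((inds P (S i)).card : ℝ) := by linarith
    exact_mod_cast h4
  have hcardn : ∀ i, (inds P (S i)).card ≤ n := fun i =>
    (Finset.card_le_univ _).trans (by simp)
  have hgn_le : ∀ i, gn P (fra_a B ε) c (S i) ≤ ((inds P (S i)).card : ℝ) := by
    intro i
    unfold gn
    rw [fra_sum]
    have h2 := fra_dev_le P B (S i)
    have h3 : (0 : ℝ) ≤ ε / 2 * ((inds P (S i)).card : ℝ) := by positivity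
    linarith
  set f : ι → ℕ := fun i => Nat.log 2 (inds P (S i)).card with hf
  have hmaps : ∀ i ∈ A, f i ∈ range (n + 1) := by
    intro i _
    rw [mem_range]
    have h1 : Nat.log 2 (inds P (S i)).card ≤ (inds P (S i)).card := Nat.log_le_self _ _
    have h2 := hcardn i
    simp only [hf]
    omega
  have hclass : ∀ j ∈ range (n + 1), ∑ i ∈ A with f i = j, gn P (fra_a B ε) c (S i) ≤
      204800 * n * Real.exp (-(ε ^ 2 * κ / 256)) *
        ((2 : ℝ) ^ (5 * j) * Real.exp (-(ε ^ 2 * 2 ^ j / 64))) := by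
    intro j _
    set Aj := A.filter (fun i => f i = j) with hAj
    by_cases hemp : Aj.Nonempty
    swap
    · rw [Finset.not_nonempty_iff_eq_empty.1 hemp]
      rw [Finset.sum_empty]
      positivity
    have hx : (0 : ℝ) < 2 ^ j := by positivity
    have hlow : ∀ i ∈ Aj, 2 ^ j ≤ (inds P (S i)).card := by
      intro i hi
      have h1 : f i = j := (mem_filter.1 hi).2
      rw [← h1]
      exact Nat.pow_log_le_self 2 (by have := hcard1 i; omega)
    have hup : ∀ i ∈ Aj, (inds P (S i)).card < 2 ^ (j + 1) := by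
      intro i hi
      have h1 : f i = j := (mem_filter.1 hi).2
      rw [← h1]
      exact Nat.lt_pow_succ_log_self (by norm_num) _
    have hupR : ∀ i ∈ Aj, ((inds P (S i)).card : ℝ) ≤ 2 * 2 ^ j := by
      intro i hi
      have h1 : ((inds P (S i)).card : ℝ) ≤ ((2 ^ (j + 1) : ℕ) : ℝ) := by
        exact_mod_cast (hup i hi).le
      refine h1.trans (le_of_eq ?_)
      push_cast
      ring
    set ρ : ℝ := max (ε * κ / (8 * 2 ^ j)) (ε / 2) with hρ
    have hρ1 : ε * κ / (8 * 2 ^ j) ≤ ρ := le_max_left _ _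
    have hρ2 : ε / 2 ≤ ρ := le_max_right _ _
    have hρpos : 0 < ρ := by linarith
    have hρle : ρ ≤ 1 := by
      obtain ⟨i, hi⟩ := hemp
      have h1 := hmem i
      have h2 := fra_dev_le P B (S i)
      have h3 : (0 : ℝ) ≤ ε / 2 * ((inds P (S i)).card : ℝ) := by positivity
      have h4 := hupR i hi
      apply max_le
      · rw [div_le_one (by positivity)]
        rw [hc] at h1
        linarith
      · linarith
    have hρdev : ∀ i ∈ Aj, ρ * ((inds P (S i)).card : ℝ) ≤ dev P B (S i) := by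
      intro i hi
      have h1 := hmem i
      have h4 := hupR i hi
      rcases le_total (ε * κ / (8 * 2 ^ j)) (ε / 2) with hle | hle
      · rw [hρ, max_eq_right hle]
        linarith
      · rw [hρ, max_eq_left hle]
        have h5 : ε * κ / (8 * 2 ^ j) * ((inds P (S i)).card : ℝ) ≤
            ε * κ / (8 * 2 ^ j) * (2 * 2 ^ j) :=
          mul_le_mul_of_nonneg_left h4 (by positivity)
        have h6 : ε * κ / (8 * 2 ^ j) * (2 * 2 ^ j) = ε * κ / 4 := by
          field_simp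
          ring
        have h3 : (0 : ℝ) ≤ ε / 2 * ((inds P (S i)).card : ℝ) := by positivity
        rw [hc] at h1
        linarith
    have hcls := hCLS n P B ι S Aj j ρ hgood hρpos hρle (fun i _ => hSne i)
      (fun i hi => ⟨hlow i hi, hup i hi, hρdev i hi⟩)
      (fun i hi k hk hik => by
        have hiA : i ∈ A := (mem_filter.1 hi).1
        have hkA : k ∈ A := (mem_filter.1 hk).1
        have h1 : ¬ Wk (S i) (S k) := fun h => hA i hiA k hkA ⟨h, hik⟩
        have h2 : ¬ Wk (S k) (S i) := fun h => hA k hkA i hiA ⟨h, fun h' => hik h'.symm⟩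
        exact ⟨h1, hunc i k h1 h2⟩)
    have hexp := fra_exp ε κ (2 ^ j) ρ hε hκpos hx hρ1 hρ2
    have hexp2 : Real.exp (-(ρ ^ 2 * 2 ^ j / 8)) ≤
        Real.exp (-(ε ^ 2 * κ / 256)) * Real.exp (-(ε ^ 2 * 2 ^ j / 64)) := by
      rw [← Real.exp_add]
      apply Real.exp_le_exp.2
      linarith
    have hpow : (2 : ℝ) ^ (5 * j) = 2 ^ (4 * j) * 2 ^ j := by
      rw [← pow_add]
      congr 1
      ring
    calc ∑ i ∈ Aj, gn P (fra_a B ε) c (S i) ≤ ∑ _i ∈ Aj, (2 * (2 : ℝ) ^ j) :=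
          Finset.sum_le_sum (fun i hi => (hgn_le i).trans (hupR i hi))
      _ = (Aj.card : ℝ) * (2 * 2 ^ j) := by rw [Finset.sum_const, nsmul_eq_mul]
      _ ≤ (102400 * 2 ^ (4 * j) * n * Real.exp (-(ρ ^ 2 * 2 ^ j / 8))) * (2 * 2 ^ j) :=
          mul_le_mul_of_nonneg_right hcls (by positivity)
      _ ≤ (102400 * 2 ^ (4 * j) * n * (Real.exp (-(ε ^ 2 * κ / 256)) *
            Real.exp (-(ε ^ 2 * 2 ^ j / 64)))) * (2 * 2 ^ j) := by
          apply mul_le_mul_of_nonneg_right _ (by positivity)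
          exact mul_le_mul_of_nonneg_left hexp2 (by positivity)
      _ = _ := by
          rw [hpow]
          ring
  have hAle : ∑ i ∈ A, gn P (fra_a B ε) c (S i) ≤
      204800 * n * Real.exp (-(ε ^ 2 * κ / 256)) * (1440 * 64 ^ 6 * (1 / ε) ^ 12) := by
    rw [← Finset.sum_fiberwise_of_maps_to hmaps]
    refine (Finset.sum_le_sum hclass).trans ?_
    rw [← Finset.mul_sum]
    exact mul_le_mul_of_nonneg_left (hSUMJ ε (n + 1) hε hε1) (by positivity)
  have hfinal : (t : ℝ) * (ε * κ / 4) ≤ w * (204800 * n * Real.exp (-(ε ^ 2 * κ / 256)) *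
      (1440 * 64 ^ 6 * (1 / ε) ^ 12)) :=
    (ht.trans hsum).trans (mul_le_mul_of_nonneg_left (hAsum.trans hAle) hwpos.le)
  have hek : 0 < ε * κ / 4 := by positivity
  rw [← le_div_iff₀ hek] at hfinal
  refine hfinal.trans (le_of_eq ?_)
  rw [show (1 / ε) ^ 13 = (1 / ε) ^ 12 * (1 / ε) by ring]
  generalize (1 / ε) ^ 12 = z
  generalize Real.exp (-(ε ^ 2 * κ / 256)) = z2
  field_simp
  ring

end Wn
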