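import Pool.Agent.Work.MP_959bfa_lin.Interface3

namespace Wn

open Finset

theorem par3_pow7 (r a : ℝ) (hr : 0 ≤ r) (ha : 0 < a) :
    r ^ 7 * Real.exp (-(a * r)) ≤ 5040 / a ^ 7 := by
  have h1 : (a * r) ^ 7 / (Nat.factorial 7 : ℝ) ≤ Real.exp (a * r) :=
    Real.pow_div_factorial_le_exp (a * r) (by positivity) 7
  have h2 : (Nat.factorial 7 : ℝ) = 5040 := by norm_num [Nat.factorial]
  rw [h2] at h1
  rw [Real.exp_neg, le_div_iff₀ (by positivity)]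
  have h3 : 0 < Real.exp (a * r) := Real.exp_pos _
  rw [show r ^ 7 * (Real.exp (a * r))⁻¹ * a ^ 7 = (a * r) ^ 7 * (Real.exp (a * r))⁻¹ by ring]
  rw [← div_eq_mul_inv, div_le_iff₀ h3]
  rw [div_le_iff₀ (by norm_num)] at h1
  linarith

theorem PAR3 : stmt_PAR3 := by
  intro C hC
  -- K large
  obtain ⟨A, hA⟩ : ∃ A : ℝ, A = 56 * C * 32 ^ 13 * (5040 / (1 / 2 ^ 19) ^ 7) := ⟨_, rfl⟩
  have hA0 : 0 ≤ A := by
    rw [hA]
    have : 0 ≤ C := by linarith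
    positivity
  refine ⟨max A (2 ^ 19), le_max_of_le_right (by norm_num), ?_⟩
  intro F k0 κ θ hF hk0 hκ hlog hθ
  have hKA : A ≤ k0 := (le_max_left _ _).trans hk0
  have hK19 : (2 : ℝ) ^ 19 ≤ k0 := (le_max_right _ _).trans hk0
  have hk0pos : 0 < k0 := lt_of_lt_of_le (by norm_num) hK19
  have hκpos : 0 < κ := by linarith
  have hF0 : 0 < F := by linarith
  have hlogF : 0 ≤ Real.log F := Real.log_nonneg hF
  -- theta
  have hx : 0 < k0 / κ := div_pos hk0pos hκpos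
  have hs1 : 0 < Real.sqrt (k0 / κ) := Real.sqrt_pos.2 hx
  have hθpos : 0 < θ := by rw [hθ]; exact Real.sqrt_pos.2 hs1
  have hθ2 : θ ^ 2 = Real.sqrt (k0 / κ) := by
    rw [hθ, Real.sq_sqrt hs1.le]
  obtain ⟨r, hr⟩ : ∃ r : ℝ, r = θ ^ 2 * κ := ⟨_, rfl⟩
  have hrpos : 0 < r := by rw [hr]; positivity
  have hθ4 : θ ^ 4 = k0 / κ := by
    calc θ ^ 4 = (θ ^ 2) ^ 2 := by ring
      _ = k0 / κ := by rw [hθ2, Real.sq_sqrt hx.le]
  have hr2 : r ^ 2 = k0 * κ := by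
    rw [hr]
    calc (θ ^ 2 * κ) ^ 2 = θ ^ 4 * κ ^ 2 := by ring
      _ = k0 * κ := by rw [hθ4]; field_simp
  have hrk0 : k0 ≤ r := by
    have h1 : k0 ^ 2 ≤ r ^ 2 := by
      rw [hr2, sq]
      exact mul_le_mul_of_nonneg_left hκ hk0pos.le
    exact abs_le_of_sq_le_sq' h1 hrpos.le |>.2
  -- 1 / theta ^ 2 <= r
  have hθr : 1 ≤ θ ^ 2 * r := by
    have h1 : θ ^ 2 * r = k0 := by
      rw [hr]
      calc θ ^ 2 * (θ ^ 2 * κ) = θ ^ 4 * κ := by ring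
        _ = k0 := by rw [hθ4]; field_simp
    rw [h1]
    exact le_trans (by norm_num) hK19
  have hθ14 : 1 ≤ θ ^ 14 * r ^ 7 := by
    have h1 : θ ^ 14 * r ^ 7 = (θ ^ 2 * r) ^ 7 := by ring
    rw [h1]
    exact one_le_pow₀ hθr
  -- log F
  have hFexp : F ≤ Real.exp (r / 2 ^ 19) := by
    rw [← Real.exp_log hF0]
    apply Real.exp_le_exp.2
    have h1 : (2 : ℝ) ^ 19 * Real.log F ≤ k0 :=
      (mul_le_mul_of_nonneg_right (le_max_right _ _) hlogF).trans hlog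
    rw [le_div_iff₀ (by norm_num)]
    linarith
  have hexp : (θ / 32) ^ 2 * κ / 256 = r / 2 ^ 18 := by
    rw [hr]
    ring
  rw [hexp]
  have hp7 := par3_pow7 r (1 / 2 ^ 19) hrpos.le (by norm_num)
  -- main estimate
  have hmain : 56 * F * (C * 32 ^ 13 * Real.exp (-(r / 2 ^ 18))) ≤ k0 * θ ^ 14 := by
    have h1 : F * Real.exp (-(r / 2 ^ 18)) ≤ Real.exp (-(1 / 2 ^ 19 * r)) := by
      calc F * Real.exp (-(r / 2 ^ 18)) ≤ Real.exp (r / 2 ^ 19) * Real.exp (-(r / 2 ^ 18)) :=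
            mul_le_mul_of_nonneg_right hFexp (Real.exp_pos _).le
        _ = Real.exp (-(1 / 2 ^ 19 * r)) := by
            rw [← Real.exp_add]
            congr 1
            ring
    have hC0 : 0 ≤ 56 * C * 32 ^ 13 := by
      have : 0 ≤ C := by linarith
      positivity
    have h2 : 56 * C * 32 ^ 13 * (r ^ 7 * Real.exp (-(1 / 2 ^ 19 * r))) ≤ k0 :=
      le_trans (mul_le_mul_of_nonneg_left hp7 hC0) (by rw [← hA]; exact hKA)
    have hEpos : 0 < Real.exp (-(1 / 2 ^ 19 * r)) := Real.exp_pos _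
    calc 56 * F * (C * 32 ^ 13 * Real.exp (-(r / 2 ^ 18)))
        = 56 * C * 32 ^ 13 * (F * Real.exp (-(r / 2 ^ 18))) := by ring
      _ ≤ 56 * C * 32 ^ 13 * Real.exp (-(1 / 2 ^ 19 * r)) :=
          mul_le_mul_of_nonneg_left h1 hC0
      _ = 56 * C * 32 ^ 13 * Real.exp (-(1 / 2 ^ 19 * r)) * 1 := (mul_one _).symm
      _ ≤ 56 * C * 32 ^ 13 * Real.exp (-(1 / 2 ^ 19 * r)) * (θ ^ 14 * r ^ 7) :=
          mul_le_mul_of_nonneg_left hθ14 (mul_nonneg hC0 hEpos.le)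
      _ = 56 * C * 32 ^ 13 * (r ^ 7 * Real.exp (-(1 / 2 ^ 19 * r))) * θ ^ 14 := by ring
      _ ≤ k0 * θ ^ 14 := mul_le_mul_of_nonneg_right h2 (by positivity)
  have hθ13 : 0 < θ ^ 13 := by positivity
  have h5 : (1 / (θ / 32)) ^ 13 = 32 ^ 13 / θ ^ 13 := by
    rw [one_div_div, div_pow]
  rw [h5]
  have h6 : 7 * F * (C * (32 ^ 13 / θ ^ 13) * Real.exp (-(r / 2 ^ 18))) =
      (56 * F * (C * 32 ^ 13 * Real.exp (-(r / 2 ^ 18)))) / (8 * θ ^ 13) := by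
    field_simp
    ring
  rw [h6, div_le_iff₀ (by positivity)]
  calc 56 * F * (C * 32 ^ 13 * Real.exp (-(r / 2 ^ 18))) ≤ k0 * θ ^ 14 := hmain
    _ = k0 * θ / 8 * (8 * θ ^ 13) := by ring

end Wn
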