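import Pool.Agent.Work.MP_959bfa_lin.Interface3
import Pool.Agent.Work.MP_959bfa_wn_helper26.GRID
import Pool.Agent.Work.MP_959bfa_wn_helper26.IND
import Pool.Agent.Work.MP_959bfa_wn_helper26.CHO
import Pool.Agent.Work.MP_959bfa_wn_helper87.CORN
import Pool.Agent.Work.MP_959bfa_wn_helper81.SWP
import Pool.Agent.Work.MP_959bfa_wn_helper52.CNT
import Pool.Agent.Work.MP_959bfa_wn_helper52.MWU
import Pool.Agent.Work.MP_959bfa_wn_helper50.TAIL
import Pool.Agent.Work.MP_959bfa_wn_helper40.SORT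
import Pool.Agent.Work.MP_959bfa_wn_helper64.PARC
import Pool.Agent.Work.MP_959bfa_wn_helper64.ONE3
import Pool.Agent.Work.MP_959bfa_lin_helper63.UNC
import Pool.Agent.Work.MP_959bfa_lin_helper63.LEV
import Pool.Agent.Work.MP_959bfa_lin_helper50.GAP3
import Pool.Agent.Work.MP_959bfa_lin_helper7.SUMJ
import Pool.Agent.Work.MP_959bfa_lin_helper27.FRA
import Pool.Agent.Work.MP_959bfa_lin_helper27.BOOT3
import Pool.Agent.Work.MP_959bfa_lin_helper27.FIN3
import Pool.Agent.Work.MP_959bfa_lin_helper81.DEP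
import Pool.Agent.Work.MP_959bfa_lin_helper81.CLS
import Pool.Agent.Work.MP_959bfa_wn_helper64.HALF
import Pool.Agent.Work.MP_959bfa_lin_helper27.PAR3

/-!
MP_959bfa_co: weak nets of linear size for axis-parallel rectangles (assembly).
-/

namespace Wn

theorem lin_HALF : stmt_HALF := HALF (CNT SWP) TAIL CHO

theorem lin_CLS : stmt_CLS := CLS (IND CORN) DEP

theorem lin_FRA : stmt_FRA := FRA UNC LEV lin_CLS SUMJ

theorem lin_ONE : stmt_ONE3 := ONE3 SORT lin_HALF lin_FRA (GAP3 MWU) PAR3 PARC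

theorem lin_BOOT : stmt_BOOT3 := BOOT3 GRID lin_ONE

theorem lin_FIN : stmt_FIN3 := FIN3 lin_BOOT

end Wn
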