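import Pool.Agent.Work.MP_959bfa_lin_helper27.FIN3
import Pool.Agent.Work.MP_959bfa_wn_helper52.MWU

namespace Wn

open Finset

theorem own_nets (h : stmt_BOOT3) :
    ∃ C : ℝ, 1 ≤ C ∧ ∀ (n k : ℕ) (P : Fin n → ℝ × ℝ), 1 ≤ k →
      ∃ Z : Finset (ℝ × ℝ), (Z.card : ℝ) ≤ C * (n / k) ∧
        ∀ R : Bx, k ≤ (inds P R).card → ∃ z ∈ Z, In R z.1 z.2 := by
  obtain ⟨C, hC, hN⟩ := h
  refine ⟨max C 1, le_max_right _ _, fun n k P hk => ?_⟩
  obtain ⟨Z, hZ, hZ2⟩ := fin3_nets C hC hN n k P hk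
  exact ⟨Z, hZ.trans (mul_le_mul_of_nonneg_right (le_max_left _ _) (by positivity)), hZ2⟩

/-- hitting sets against fractional hitting sets -/
theorem own_gap (C : ℝ) (hC : 1 ≤ C)
    (hN : ∀ (n k : ℕ) (P : Fin n → ℝ × ℝ), 1 ≤ k →
      ∃ Z : Finset (ℝ × ℝ), (Z.card : ℝ) ≤ C * (n / k) ∧
        ∀ R : Bx, k ≤ (inds P R).card → ∃ z ∈ Z, In R z.1 z.2)
    (X : Finset (ℝ × ℝ)) (w : ℝ × ℝ → ℝ) (hw : ∀ x ∈ X, 0 ≤ w x) :
    ∃ Z : Finset (ℝ × ℝ), (Z.card : ℝ) ≤ 2 * C * ∑ x ∈ X, w x ∧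
      ∀ R : Bx, 1 ≤ ∑ x ∈ fl X (fun x => In R x.1 x.2), w x → ∃ z ∈ Z, In R z.1 z.2 := by
  classical
  have hW0 : 0 ≤ ∑ x ∈ X, w x := Finset.sum_nonneg hw
  by_cases hW : 1 ≤ ∑ x ∈ X, w x
  swap
  · refine ⟨∅, ?_, ?_⟩
    · have : 0 ≤ 2 * C * ∑ x ∈ X, w x := by positivity
      simpa using this
    · intro R hR
      exfalso
      apply hW
      exact hR.trans (Finset.sum_le_sum_of_subset_of_nonneg (fl_subset _ _)
        (fun x hx _ => hw x hx))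
  -- multiplicities
  obtain ⟨N, hNdef⟩ : ∃ N : ℕ, N = X.card + 1 := ⟨_, rfl⟩
  have hN1 : 1 ≤ N := by omega
  have hNpos : (0 : ℝ) < N := by exact_mod_cast hN1
  obtain ⟨P, hP⟩ := MWU_multi X (fun x => ⌈N * w x⌉₊)
  obtain ⟨Z, hZ, hZ2⟩ := hN _ N P hN1
  refine ⟨Z, hZ.trans ?_, ?_⟩
  · have h1 : ((∑ x ∈ X, ⌈N * w x⌉₊ : ℕ) : ℝ) ≤ N * (2 * ∑ x ∈ X, w x) := by
      push_cast
      calc ∑ x ∈ X, (⌈N * w x⌉₊ : ℝ) ≤ ∑ x ∈ X, (N * w x + 1) := by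
            refine Finset.sum_le_sum (fun x hx => ?_)
            exact (Nat.ceil_lt_add_one (mul_nonneg hNpos.le (hw x hx))).le
        _ = N * ∑ x ∈ X, w x + X.card := by
            rw [Finset.sum_add_distrib, ← Finset.mul_sum]
            simp
        _ ≤ N * ∑ x ∈ X, w x + N * ∑ x ∈ X, w x := by
            have h2 : (X.card : ℝ) ≤ N := by
              rw [hNdef]
              push_cast
              linarith
            have h3 : (N : ℝ) * 1 ≤ N * ∑ x ∈ X, w x :=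
              mul_le_mul_of_nonneg_left hW hNpos.le
            linarith
        _ = N * (2 * ∑ x ∈ X, w x) := by ring
    have h2 : ((∑ x ∈ X, ⌈N * w x⌉₊ : ℕ) : ℝ) / N ≤ 2 * ∑ x ∈ X, w x := by
      rw [div_le_iff₀ hNpos]
      linarith
    calc C * (((∑ x ∈ X, ⌈N * w x⌉₊ : ℕ) : ℝ) / N) ≤ C * (2 * ∑ x ∈ X, w x) :=
          mul_le_mul_of_nonneg_left h2 (by linarith)
      _ = 2 * C * ∑ x ∈ X, w x := by ring
  · intro R hR
    apply hZ2 R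
    rw [hP R]
    have h1 : (N : ℝ) ≤ ((∑ x ∈ fl X (fun x => In R x.1 x.2), ⌈N * w x⌉₊ : ℕ) : ℝ) := by
      push_cast
      calc (N : ℝ) = N * 1 := (mul_one _).symm
        _ ≤ N * ∑ x ∈ fl X (fun x => In R x.1 x.2), w x :=
            mul_le_mul_of_nonneg_left hR hNpos.le
        _ = ∑ x ∈ fl X (fun x => In R x.1 x.2), N * w x := Finset.mul_sum _ _ _
        _ ≤ _ := Finset.sum_le_sum (fun x _ => Nat.le_ceil _)
    exact_mod_cast h1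

end Wn
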